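import Pool.Agent.H58.RHC.Fin2

/-!
For every `c < log 2` and all sufficiently large `y` there is an admissible set
`A ⊆ {1, ..., y}` with at least `(1 + c log_4 y / (log_2 y log_3 y)) π(y)` elements, where `log_k`
is the `k`-fold iterated logarithm.

(Hensley and Richards, 1973: `π(y) + (log 2 - ε) y / (log y)^2`.)
-/

set_option autoImplicit false

open Finset Real

namespace Pool.Agent.Results.MP_5046ca_nt.DenseAdmissibleKakeya

theorem result :
    ∀ c : ℝ, c < Real.log 2 → ∃ Y : ℕ, ∀ y : ℕ, Y ≤ y → ∃ A : Finset ℕ, A ⊆ Finset.Icc 1 y ∧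
      (∀ p : ℕ, p.Prime → ∃ r : ℕ, ∀ a ∈ A, ¬ a ≡ r [MOD p]) ∧
      (1 + c * Real.log (Real.log (Real.log (Real.log y))) /
        (Real.log (Real.log y) * Real.log (Real.log (Real.log y)))) *
        (Nat.primeCounting y : ℝ) ≤ A.card := by
  intro c hc
  obtain ⟨Y, hY⟩ := Filter.eventually_atTop.1 (RHC.dense_S hc)
  refine ⟨Y, fun y hy => ?_⟩
  obtain ⟨A, h1, h2, h3⟩ := hY y hy
  exact ⟨A, h1, h2, h3⟩

end Pool.Agent.Results.MP_5046ca_nt.DenseAdmissibleKakeya
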