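import Pool.Agent.H62.RHC.Red2

/-!
For all `c, d > 0` with `c + d < log 2` and all large `y`, every set `S ⊆ {1, ..., y}` has a subset
`D` of at most `y ^ (-d / log log y) |S|` elements which contains, for every integer
`q ≥ y ^ (1 - c / log log y)`, all the elements of `S` of some residue class modulo `q`; hence every
set `S ⊆ {1, ..., y}` which misses a residue class modulo every prime
`p < y ^ (1 - c / log log y)` contains an admissible set `A` with
`|A| ≥ (1 - y ^ (-d / log log y)) |S|`.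
-/

set_option autoImplicit false

open Finset Real

namespace Pool.Agent.Results.MP_5046ca_nt.LargeModuliFree

theorem result :
    ∀ c d : ℝ, 0 < c → 0 < d → c + d < Real.log 2 → ∃ Y : ℕ, ∀ y : ℕ, Y ≤ y →
      ∀ S : Finset ℕ, S ⊆ Finset.Icc 1 y →
        (∃ D : Finset ℕ, D ⊆ S ∧
          (D.card : ℝ) ≤ (y : ℝ) ^ (-(d / Real.log (Real.log y))) * S.card ∧
          ∀ q : ℕ, (y : ℝ) ^ (1 - c / Real.log (Real.log y)) ≤ q →
            ∃ r : ℕ, ∀ n ∈ S, n ≡ r [MOD q] → n ∈ D) ∧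
        ((∀ p : ℕ, p.Prime → (p : ℝ) < (y : ℝ) ^ (1 - c / Real.log (Real.log y)) →
            ∃ r : ℕ, ∀ a ∈ S, ¬ a ≡ r [MOD p]) →
          ∃ A : Finset ℕ, A ⊆ S ∧
            (∀ p : ℕ, p.Prime → ∃ r : ℕ, ∀ a ∈ A, ¬ a ≡ r [MOD p]) ∧
            (∀ q : ℕ, (y : ℝ) ^ (1 - c / Real.log (Real.log y)) ≤ q →
              ∃ r : ℕ, ∀ a ∈ A, ¬ a ≡ r [MOD q]) ∧
            (1 - (y : ℝ) ^ (-(d / Real.log (Real.log y)))) * S.card ≤ A.card) :=
  Pool.RHC62.red3

end Pool.Agent.Results.MP_5046ca_nt.LargeModuliFree
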