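import Pool.Agent.H58.RHC.Fin2
import Pool.Agent.H14.RHC.TuplesH

/-!
Let `0 ≤ c₁`, `c₀ + c₁ < log 2`, and write `log₂ y = log log y`, `log₃ y = log log log y`,
`log₄ y = log log log log y`.  If `ρ(y) ≤ (1 + c₀ log₄ y / (log₂ y log₃ y)) π(y)` for infinitely
many `y` (in particular if Q1 holds), then there are arbitrarily large admissible sets `A` such that
every sufficiently late translate `x + A` contains fewer than `(1 - c₁ log₄ k / (log₂ k log₃ k)) k`
primes, `k = |A|`.
-/

set_option autoImplicit false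

open Finset Real

namespace Pool.Agent.Results.MP_5046ca_nt.TuplesFailKakeya

theorem result :
    ∀ c₀ c₁ : ℝ, 0 ≤ c₁ → c₀ + c₁ < Real.log 2 →
      (∀ Y : ℕ, ∃ y : ℕ, Y ≤ y ∧ ∃ X : ℕ, ∀ x : ℕ, X ≤ x →
        (Nat.primeCounting (x + y) : ℝ) - Nat.primeCounting x ≤
          (1 + c₀ * Real.log (Real.log (Real.log (Real.log y))) /
            (Real.log (Real.log y) * Real.log (Real.log (Real.log y)))) *
            Nat.primeCounting y) →
      ∀ K : ℕ, ∃ A : Finset ℕ, K ≤ A.card ∧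
        (∀ p : ℕ, p.Prime → ∃ r : ℕ, ∀ a ∈ A, ¬ a ≡ r [MOD p]) ∧
        ∃ X : ℕ, ∀ x : ℕ, X ≤ x →
          ((A.filter (fun a => (x + a).Prime)).card : ℝ) <
            (1 - c₁ * Real.log (Real.log (Real.log (Real.log A.card))) /
              (Real.log (Real.log A.card) *
              Real.log (Real.log (Real.log A.card)))) * A.card := by
  intro c₀ c₁ hc1 hc h K
  obtain ⟨A, h1, h2, h3⟩ := RHC.tuples_Glf (κ := Real.log 2) (fun c hc => RHC.dense_S hc) hc1 hc h K
  exact ⟨A, h1, h2, h3⟩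

end Pool.Agent.Results.MP_5046ca_nt.TuplesFailKakeya
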