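import Pool.Agent.H88.RHI.Inf

/-!
Call a set of positive integers admissible if it misses a residue class modulo every prime.  Let
`Y` be an infinite set of positive integers and `B` a finite admissible set.  There is one infinite
admissible set `A` which contains `B` and a translate of every finite admissible set, and for
infinitely many `y ∈ Y` no admissible subset `C` of `[1, y]` satisfies
`|A ∩ [1, y]| < (1 - 1 / log y) |C|`.
-/

set_option autoImplicit false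

open Finset Real

namespace Pool.Agent.Results.MP_5046ca_nt.UniversalAdmissible

theorem result :
    ∀ Y : Set ℕ, Y.Infinite → ∀ B : Finset ℕ, 0 ∉ B →
      (∀ p : ℕ, p.Prime → ∃ r : ℕ, ∀ b ∈ B, ¬ b ≡ r [MOD p]) →
      ∃ A : Set ℕ, (B : Set ℕ) ⊆ A ∧ 0 ∉ A ∧
        (∀ p : ℕ, p.Prime → ∃ r : ℕ, ∀ a ∈ A, ¬ a ≡ r [MOD p]) ∧
        (∀ D : Finset ℕ, (∀ p : ℕ, p.Prime → ∃ r : ℕ, ∀ d ∈ D, ¬ d ≡ r [MOD p]) →
          ∃ t : ℕ, ∀ d ∈ D, d + t ∈ A) ∧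
        {y ∈ Y | ∀ C : Finset ℕ, C ⊆ Finset.Icc 1 y →
          (∀ p : ℕ, p.Prime → ∃ r : ℕ, ∀ a ∈ C, ¬ a ≡ r [MOD p]) →
          (1 - 1 / Real.log y) * (C.card : ℝ) ≤ ((A ∩ Set.Icc 1 y).ncard : ℝ)}.Infinite := by
  intro Y hY B hB0 hB
  obtain ⟨A, h1, h2, h3, h4, h5⟩ := RHI88.exists_inf hY B hB0 hB
  refine ⟨A, h1, h2, h3, h4, ?_⟩
  rw [Set.infinite_iff_exists_gt]
  intro M
  obtain ⟨y, hy1, hy2, hy3⟩ := h5 (M + 1)
  exact ⟨y, ⟨hy2, hy3⟩, by omega⟩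

end Pool.Agent.Results.MP_5046ca_nt.UniversalAdmissible
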